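import Pool.Agent.Lib.helper9.MedC
import Pool.Agent.Lib.helper9.EXPs
import Pool.Agent.Lib.helper10.NPGraphL

namespace Pool.Agent.Results.MP_7f5e5b_lc.EXPTIME

open Pool.Agent.Cx Pool.Agent.Med Polynomial Finset

/-- a bijection between the configurations moves each guard inside its closed neighbourhood -/
def Traversable {W : Type} (G : SimpleGraph W) (C D : Finset W) : Prop :=
  ∃ f : C ≃ D, ∀ u : C, (f u : W) = u ∨ G.Adj u (f u)

/-- an m-eternal dominating strategy of order `k` -/
def Strategy {W : Type} (G : SimpleGraph W) (k : ℕ) (F : Set (Finset W)) : Prop :=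
  F.Nonempty ∧ (∀ C ∈ F, C.card = k) ∧
    ∀ C ∈ F, ∀ v, ∃ D ∈ F, v ∈ D ∧ (D = C ∨ Traversable G C D)

/-- the m-eternal domination number -/
noncomputable def gammaM {W : Type} (G : SimpleGraph W) : ℕ := sInf {k | ∃ F, Strategy G k F}

/-- `M` is the adjacency matrix of a graph with m-eternal domination number at most `k` -/
def MED (I : List (List Bool) × ℕ) : Prop := IsGraph I.1 ∧ gammaM (graphOf I.1) ≤ I.2

lemma bridge {W T : Type} [Fintype W] [DecidableEq T] {G : SimpleGraph W} {k : ℕ} {ι : W → T}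
    (hι : ι.Injective) {V : T → Prop} (hV : ∀ x, V x ↔ ∃ w, ι w = x) {N : T → T → Prop}
    (hN : ∀ a b, N (ι a) (ι b) ↔ b = a ∨ G.Adj a b) : gammaM G ≤ k ↔ MStr V N k := by
  classical
  have im : ∀ C : Finset W, (univ : Finset C).image (fun u : C => ι u) = C.image ι := fun C => by
    ext; simp
  constructor
  · intro h
    obtain ⟨F, ⟨C, hC⟩, a, b⟩ := Nat.sInf_mem (s := {k | ∃ F, Strategy G k F})
      ⟨_, {univ}, by simp, fun _ h => congrArg card h, by simp⟩
    refine ⟨image ι '' F, ⟨_, C, hC, rfl⟩, ?_⟩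
    rintro _ ⟨C, hC, rfl⟩
    refine ⟨card_image_le.trans ((a C hC).le.trans h), by simp [hV], fun v hv => ?_⟩
    obtain ⟨v, rfl⟩ := (hV v).1 hv
    obtain ⟨D, hD, c, d⟩ := b C hC v
    obtain ⟨f, d⟩ : Traversable G C D := d.elim (fun e => e ▸ ⟨.refl _, by simp⟩) id
    refine ⟨_, ⟨D, hD, rfl⟩, mem_image_of_mem _ c, ?_⟩
    have := tv_of (N := N) (s := (univ : Finset C)) (p := fun u => ι u)
      (q := (fun u : D => ι u) ∘ f) (hι.comp Subtype.val_injective).injOn
      ((hι.comp Subtype.val_injective).comp f.injective).injOn fun u _ => (hN _ _).2 (d u)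
    rwa [← image_image, image_univ_equiv, im, im] at this
  · rintro ⟨F, ⟨X, hX⟩, h⟩
    have pre : ∀ X ∈ F, ∃ C : Finset W, C.image ι = X := fun X hX =>
      ⟨univ.filter (ι · ∈ X), by
        ext x
        simp only [mem_image, mem_filter, mem_univ, true_and]
        exact ⟨fun ⟨w, a, b⟩ => b ▸ a, fun a => let ⟨w, b⟩ := (hV x).1 ((h X hX).2.1 x a)
          ⟨w, b ▸ a, b⟩⟩⟩
    obtain ⟨C0, rfl⟩ := pre X hX
    refine (Nat.sInf_le (m := C0.card) (s := {k | ∃ F, Strategy G k F})
      ⟨{C | C.image ι ∈ F ∧ C.card = C0.card}, ⟨C0, hX, rfl⟩,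
      fun _ h => h.2, fun C ⟨a, b⟩ v => ?_⟩).trans (card_image_of_injective C0 hι ▸ (h _ hX).1)
    obtain ⟨Y, hY, c, f, f1, f2, f3⟩ := (h _ a).2.2 (ι v) ((hV _).2 ⟨v, rfl⟩)
    obtain ⟨D, rfl⟩ := pre Y hY
    have e : D.card = C.card := by
      rw [← card_image_of_injective D hι, ← f2, card_image_of_injOn f1, card_image_of_injective _ hι]
    have : ∀ u : C, ∃ w : D, ι w = f (ι u) := fun u => by
      obtain ⟨w, a, b⟩ := mem_image.1 (f2 ▸ mem_image_of_mem f (mem_image_of_mem ι u.2))
      exact ⟨⟨w, a⟩, b⟩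
    choose g hg using this
    refine ⟨D, ⟨hY, e.trans b⟩, hι.mem_finset_image.1 c, Or.inr ⟨.ofBijective g
      ((Fintype.bijective_iff_injective_and_card g).2 ⟨fun u u' e => Subtype.ext (hι (f1
        (mem_image_of_mem ι u.2) (mem_image_of_mem ι u'.2) (by rw [← hg, ← hg, e]))), by simp [e]⟩), fun u => (hN _ _).1 ?_⟩⟩
    exact (hg u).symm ▸ f3 _ (mem_image_of_mem ι u.2)

lemma pp_graph : PP IsGraph := by
  have : PP fun M : List (List Bool) => ¬ (∃ r ∈ M, r.length ≠ M.length) ∧ ¬ ∃ i < M.length,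
      (M.getD i []).getD i false = true ∨ ∃ j < M.length,
        (M.getD i []).getD j false ≠ (M.getD j []).getD i false := by fun_prop
  convert this using 2 with M
  push Not
  refine and_congr_right fun h => ⟨fun ⟨a, b⟩ i _ => ⟨a i, fun j _ => Bool.eq_iff_iff.2
    ⟨b i j, b j i⟩⟩, fun a => ?_⟩
  have lt : ∀ i j, Entry M i j → i < M.length ∧ j < M.length := by
    intro i j e
    have hi : i < M.length := by
      by_contra h; rw [Entry, List.getD_eq_default _ _ (not_lt.1 h)] at e; simp at e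
    refine ⟨hi, ?_⟩
    by_contra h'
    rw [Entry, List.getD_eq_getElem _ _ hi, List.getD_eq_default _ _
      (by rw [h _ (List.getElem_mem hi)]; omega)] at e
    simp at e
  exact ⟨fun i e => (a i (lt _ _ e).1).1 e, fun i j e =>
    ((a i (lt _ _ e).1).2 j (lt _ _ e).2).symm.trans e⟩

lemma mem : InEXPTIME (Lang MED) := by
  let S : (List (List Bool) × ℕ) × ℕ → List (List ℕ) := fun z =>
    ((List.range (min z.1.2 z.1.1.length + 1)).flatMap fun i =>
      wordsB (List.range z.1.1.length) i z.2).filter fun l => decide l.Nodup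
  let N : List (List Bool) → ℕ → ℕ → Prop := fun M u v => v = u ∨ (M.getD u []).getD v false = true
  have h := PP.safe (S := S) (A := fun z => List.range z.1.1.length)
    (R := fun z s t s' => t ∈ s' ∧ s'.length = s.length ∧
      ¬ ∃ i < s.length, ¬ N z.1.1 (s.getD i 0) (s'.getD i 0))
    (by simp only [S]; fun_prop) (by fun_prop) (by simp only [N]; fun_prop)
  refine inEXP_Lang ((pp_graph.comp (f := fun z : (List (List Bool) × ℕ) × ℕ => z.1.1)
    (by fun_prop)).and h) (X * X) fun ⟨M, k⟩ => and_congr_right fun hM => ?_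
  rw [bridge (ι := Fin.val) Fin.val_injective (V := (· < M.length)) (N := N M)
    (fun x => by simp [Fin.exists_iff]) fun a b => by
      simp only [N, graphOf, SimpleGraph.fromRel_adj, Fin.val_inj]
      refine ⟨fun h => (em _).imp_right fun e => ⟨Ne.symm e, Or.inl (h.resolve_left e)⟩,
        Or.imp_right fun h => h.2.elim id (hM.2.2 _ _)⟩]
  have hS : ∀ l, l ∈ S ((M, k), 2 ^ eval (size (M, k)) (X * X)) ↔
      l.length ≤ k ∧ (∀ x ∈ l, x < M.length) ∧ l.Nodup := fun l => by
    have : ∀ i ≤ M.length, wordsB (List.range M.length) i (2 ^ eval (size (M, k)) (X * X)) =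
        words (List.range M.length) i := fun i hi => wordsB_eq _ _ _ (by
      have := length_lt_size M
      have := size_pair M k
      simp only [eval_mul, eval_X, pow_mul, List.length_range]
      exact (Nat.pow_le_pow_left (le_trans (by omega) Nat.lt_two_pow_self.le) _).trans
        (Nat.pow_le_pow_right (by positivity) (by omega)))
    simp only [S, List.mem_filter, List.mem_flatMap, List.mem_range, decide_eq_true_eq, ← and_assoc]
    refine and_congr_left fun nd => ⟨fun ⟨i, a, b⟩ => ?_, fun ⟨a, b⟩ => ?_⟩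
    · rw [this i (by omega), mem_words] at b
      exact ⟨by omega, by simpa using b.2⟩
    · have c : l.length ≤ M.length := by
        simpa using (nd.subperm (l₂ := List.range M.length)
          fun x hx => List.mem_range.2 (b x hx)).length_le
      exact ⟨l.length, by omega, by rw [this _ c, mem_words]; simpa using b⟩
  simp only [hS, List.mem_range, not_exists, not_and, not_not]
  constructor
  · rintro ⟨F, ⟨C, hC⟩, h⟩
    refine ⟨{l | l.Nodup ∧ l.toFinset ∈ F}, ⟨C.toList, C.nodup_toList, by simpa⟩,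
      fun l ⟨a, b⟩ => ⟨List.toFinset_card_of_nodup a ▸ (h _ b).1, by simpa using (h _ b).2.1, a⟩,
      fun l ⟨a, b⟩ t ht => ?_⟩
    obtain ⟨_, c, d, f, f1, rfl, f3⟩ := (h _ b).2.2 t ht
    refine ⟨l.map f, ⟨a.map_on (by simpa [Set.InjOn] using f1), by
      convert c; ext; simp⟩, by simpa using d, by simp, fun i hi => ?_⟩
    simpa [hi] using f3 l[i] (by simp)
  · rintro ⟨W, ⟨l, hl⟩, a, h⟩
    refine ⟨List.toFinset '' W, ⟨_, l, hl, rfl⟩, ?_⟩
    rintro _ ⟨l, hl, rfl⟩
    refine ⟨(List.toFinset_card_le _).trans (a l hl).1, by simpa using (a l hl).2.1, fun t ht => ?_⟩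
    obtain ⟨l', b, c, d, e⟩ := h l hl t ht
    have im : ∀ l : List ℕ, (range l.length).image (l.getD · 0) = l.toFinset := fun l => by
      ext x
      simp only [mem_image, mem_range, List.mem_toFinset, List.mem_iff_getElem]
      exact exists_congr fun i => ⟨fun ⟨a, b⟩ => ⟨a, by simpa [a] using b⟩,
        fun ⟨a, b⟩ => ⟨a, by simpa [a] using b⟩⟩
    have inj : ∀ l : List ℕ, l.Nodup → Set.InjOn (l.getD · 0) (range l.length) :=
      fun l h i hi j hj e => by
        simp only [coe_range, Set.mem_Iio] at hi hj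
        simpa [hi, hj, h.getElem_inj_iff] using e
    refine ⟨_, ⟨l', b, rfl⟩, by simpa, ?_⟩
    rw [← im, ← im, d]
    exact tv_of (inj l (a l hl).2.2) (d ▸ inj l' (a l' b).2.2) (by simpa using e)

def par (I : ℕ × List Op) : Par where
  m := I.1 + 2
  L := I.2.length
  n := size I
  M := size I + 1
  tg j := if j < I.2.length ∧ (I.2.getD j (0, [], [])).1 < I.1 + 2 then (I.2.getD j (0, [], [])).1
    else I.1 + 2 + (j - I.2.length)
  al j := Al (I.2.getD j (0, [], []))

lemma sg_iff (I : ℕ × List Op) : SG I ↔ MStr (Vd (par I)) (Nb (par I)) (size I + 3) := by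
  rw [show size I = (par I).n from rfl, mstr_iff (by simp [par])
    (fun j hj => by simp only [par] at *; split_ifs <;> omega) (by simp [par]) (by simp [par])]
  have bd : ∀ o ∈ I.2, (∀ x ∈ o.2.1, x.1 < size I ∧ x.2 < size I) ∧
      ∀ x ∈ o.2.2, x.1 < size I ∧ x.2 < size I := fun o ho => by
    have := size_lt_of_mem ho
    have := size_pair I.1 I.2
    have := size_pair o.1 o.2
    have := size_pair o.2.1 o.2.2
    refine ⟨fun x hx => ?_, fun x hx => ?_⟩ <;>
    · have := size_lt_of_mem hx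
      have := size_pair x.1 x.2
      simp only [Prod.mk.eta, size_nat] at *
      omega
  simp only [Gm, par]
  constructor
  · rintro ⟨W, ⟨σ, hσ⟩, h⟩
    refine ⟨(fun σ i => min (σ i) (size I)) '' W, ⟨_, σ, hσ, rfl⟩, ?_⟩
    rintro _ ⟨σ, hσ, rfl⟩
    refine ⟨fun i _ => by simp only; omega, fun a ha => ?_⟩
    obtain ⟨o, ho, rfl, σ', b, c⟩ := h σ hσ a ha
    obtain ⟨j, hj, rfl⟩ := List.getElem_of_mem ho
    refine ⟨j, hj, by simp [hj, ha], _, ⟨σ', b, rfl⟩, fun i _ => ?_⟩
    rw [List.getD_eq_getElem _ _ hj]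
    obtain ⟨c1, c2, c3⟩ := c i
    exact ⟨fun x hx e => by have := (bd _ ho).1 x hx; have := c1 x hx e; simp only; omega,
      fun x hx e => by have := (bd _ ho).2 x hx; have := c2 x hx e; simp only; omega,
      fun e => by simp only [c3 e]⟩
  · rintro ⟨W, ⟨σ, hσ⟩, h⟩
    refine ⟨{σ | ∃ σ0 ∈ W, ∀ i < size I, σ i = σ0 i}, ⟨σ, σ, hσ, fun _ _ => rfl⟩, ?_⟩
    rintro σ ⟨σ0, h0, e⟩ a ha
    obtain ⟨j, hj, b, σ', c, d⟩ := (h σ0 h0).2 a ha
    rw [List.getD_eq_getElem _ _ hj] at b d
    have ho := List.getElem_mem hj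
    refine ⟨_, ho, by split_ifs at b <;> omega, fun i => if i < size I then σ' i else σ i,
      ⟨σ', c, fun i hi => if_pos hi⟩, fun i => ?_⟩
    by_cases hi : i < size I
    · simpa only [if_pos hi, e i hi] using d i hi
    · exact ⟨fun x hx e => by have := (bd _ ho).1 x hx; omega,
        fun x hx e => by have := (bd _ ho).2 x hx; omega, fun _ => if_neg hi⟩

@[fun_prop] lemma pp_al {α : Type} [Enc α] {o : α → Op} {i u v : α → ℕ} (ho : PT o) (hi : PT i)
    (hu : PT u) (hv : PT v) : PP fun a => Al (o a) (i a) (u a) (v a) := by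
  have : PP fun a => ¬ (∃ x ∈ (o a).2.1, x.1 = i a ∧ u a ≠ x.2) ∧
    ¬ (∃ x ∈ (o a).2.2, x.1 = i a ∧ v a ≠ x.2) ∧ ((∃ x ∈ (o a).2.2, x.1 = i a) ∨ v a = u a) := by
    fun_prop
  convert this using 2
  simp only [Al, or_iff_not_imp_left]
  push Not
  rfl

open Classical in
noncomputable def vs (I : ℕ × List Op) : List T5 :=
  (List.range 13 ×ˢ List.range (size I + 5) ×ˢ List.range (size I + 5) ×ˢ List.range (size I + 5) ×ˢ
    List.range (size I + 5)).filter fun x => decide (Vd (par I) x)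

lemma hard : HardEX MED := by
  classical
  refine hardEX_sg.red (r := fun I => (gmat (vs I) fun x y => decide (Ed (par I) x y), size I + 3))
    (PT.pair (PT.gmat (PT.filter (PP.decide (by unfold Vd par; fun_prop)) (by fun_prop))
      (PP.decide (by unfold Ed par; fun_prop))) (by fun_prop)) fun I => ?_
  have nd : (vs I).Nodup := (List.nodup_range.product (List.nodup_range.product
    (List.nodup_range.product (List.nodup_range.product List.nodup_range)))).filter _
  have hV : ∀ x, x ∈ vs I ↔ Vd (par I) x := fun ⟨a, b, c, d, e⟩ => by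
    simp only [vs, List.mem_filter, decide_eq_true_eq, and_iff_right_iff_imp]
    have := length_lt_size I.2
    have := size_pair I.1 I.2
    simp only [Prod.mk.eta, size_nat] at *
    rintro (h | h | h | h | h | h | h | h) <;> simp [par] at h ⊢ <;> omega
  rw [sg_iff, MED, and_iff_right (isGraph_gmat _ _)]
  refine (bridge (ι := fun w => (gmatIso _ _ nd w).1)
    (Subtype.val_injective.comp (gmatIso _ _ nd).injective) (fun x => ⟨fun h =>
      ⟨(gmatIso _ _ nd).symm ⟨x, (hV x).2 h⟩, by simp⟩, ?_⟩) fun a b => ?_).symm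
  · rintro ⟨w, rfl⟩; exact (hV _).1 (gmatIso _ _ nd w).2
  · rw [← (gmatIso _ _ nd).map_rel_iff, listGraph_adj, ← (gmatIso _ _ nd).injective.eq_iff,
      Subtype.ext_iff, Nb, eq_comm, decide_eq_true_eq, decide_eq_true_eq]
    refine ⟨fun h => (em _).imp_right fun e => ⟨Ne.symm e, h.resolve_left e⟩, Or.imp_right And.right⟩

theorem result : EXPTIMEComplete (Lang MED) ∧
    (InPSPACE (Lang MED) ↔ ∀ L, InEXPTIME L → InPSPACE L) :=
  ⟨⟨mem, hard.hard⟩, hard.ps_eq, fun h => h _ mem⟩

end Pool.Agent.Results.MP_7f5e5b_lc.EXPTIME
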